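import Pool.Agent.Lib.MP_fa837f_gt.Bridge

/-!
Log-concavity of sections of rescaled `ℓ_p` balls for `1 < p ≤ 2`, in all dimensions and for all
subspaces.

The idea: up to a constant, `F_{p,H}(t)` is the integral over `H` of `exp (- ∑ e^{-p t_i} |x_i|^p)`.
For `p ≤ 2` the functions `exp (- c |x|^p)` are limits of polynomials with nonnegative coefficients
in Gaussians, and a four functions argument shows that the integral is log-supermodular in the
parameters `s_i = - p t_i`. It is also log-linear in the direction `(1, …, 1)` by homogeneity.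
A continuous supermodular function which is affine in the direction `(1, …, 1)` is concave.
-/

namespace Pool.Agent.Results.MP_fa837f_gt.PLeTwo

open Pool.Agent.Lib.MP_fa837f_gt

theorem result (p : ℝ) (hp1 : 1 < p) (hp2 : p ≤ 2) (n k : ℕ) (hk : 1 ≤ k)
    (H : Submodule ℝ (EuclideanSpace ℝ (Fin n))) (hH : Module.finrank ℝ H = k) :
    (∀ t : Fin n → ℝ, 0 < sectionVol p H t) ∧
      ∀ s t : Fin n → ℝ, ∀ l : ℝ, 0 ≤ l → l ≤ 1 →
        sectionVol p H s ^ l * sectionVol p H t ^ (1 - l) ≤
          sectionVol p H (l • s + (1 - l) • t) :=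
  sectionVol_logconcave H hp1.le hp2 (by omega)

end Pool.Agent.Results.MP_fa837f_gt.PLeTwo
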