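import Pool.Agent.Lib.MP_fa837f_gt.P2.Final

/-!
Log-concavity of sections of rescaled `ℓ_p` balls for `2 < p ≤ 5/2`, in all dimensions and for all
subspaces.

For `p > 2` the function `exp (- c |x|^p)` is not a mixture of Gaussians. With `α = p / 2 = 1 + δ`,
the integral over `H` of `exp (- ∑ c_i |x_i|^p)` is written as an integral over three columns `y` in
`H` of a positive density `det R exp (- κ)`, where `R = ∑ c_i (|y_i|^2)^δ m_i m_iᵀ` and
`κ = ∑ c_i / (1 + δ) (|y_i|^2)^(1 + δ)`. The second derivative of the logarithm of the integral along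
a line is computed exactly (integration by parts), and its sign follows from two integrated
identities and from a weighted Poincaré inequality for the diffusion with the coefficients
`R⁻¹ ⊗ 1`, which is proved by a Bochner formula, a vector Hardy inequality and a Liouville theorem.
-/

namespace Pool.Agent.Results.MP_fa837f_gt.PastTwo

open Pool.Agent.Lib.MP_fa837f_gt

theorem result (p : ℝ) (hp1 : 2 < p) (hp2 : p ≤ 5 / 2) (n k : ℕ) (hk : 1 ≤ k)
    (H : Submodule ℝ (EuclideanSpace ℝ (Fin n))) (hH : Module.finrank ℝ H = k) :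
    (∀ t : Fin n → ℝ, 0 < sectionVol p H t) ∧
      ∀ s t : Fin n → ℝ, ∀ l : ℝ, 0 ≤ l → l ≤ 1 →
        sectionVol p H s ^ l * sectionVol p H t ^ (1 - l) ≤
          sectionVol p H (l • s + (1 - l) • t) :=
  P2.final p hp1 hp2 n k hk H hH

end Pool.Agent.Results.MP_fa837f_gt.PastTwo
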