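import Pool.Agent.Lib.MP_fa837f_gt.TS.H99.Asm

/-!
Log-concavity of the sections of rescaled cubes and of rescaled `ℓ_p` balls, `1 ≤ p < ∞`, for all
subspaces of a class which is closed under two-sums.
-/

set_option autoImplicit false

open Pool.Agent.Lib.MP_fa837f_gt Pool.Agent.Lib.MP_fa837f_gt.TS

namespace Pool.Agent.Results.MP_fa837f_gt.TwoSums

/-- Let `Built` be the smallest class of subspaces of the spaces `ℝ^n` which contains all subspaces
of dimension at most two and all subspaces `H` with log-concave `t ↦ vol (D_t B_∞^n ∩ H)`, and which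
is closed under permutations of the coordinates, direct sums and two-sums. The class contains all
subspaces of codimension at most one, and for every `H` in the class the functions
`t ↦ vol (D_t B_∞^n ∩ H)` and `t ↦ vol (D_t B_p^n ∩ H)`, `1 ≤ p < ∞`, are positive and
log-concave. -/
theorem result :
    (∀ (n : ℕ) (H : Submodule ℝ (EuclideanSpace ℝ (Fin n))),
      Module.finrank ℝ H ≤ 2 ∨ n ≤ Module.finrank ℝ H + 1 → Built H) ∧
    ∀ (n : ℕ) (H : Submodule ℝ (EuclideanSpace ℝ (Fin n))), Built H →
      LogConcave (cubeVol H) ∧ ∀ p : ℝ, 1 ≤ p → LogConcave (sectionVol p H) := by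
  refine ⟨fun n H h => ?_, H99.a_main⟩
  rcases h with h | h
  · exact Built.small H h
  · exact H99.a_hyp n H h

end Pool.Agent.Results.MP_fa837f_gt.TwoSums
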